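import Pool.Agent.Y767.HC.Stm

/-!
# A compactly supported function whose Fourier transform majorises a compact set

`t_bump : Pool.Agent.Y767.StBump`.  Smooth bump, inverse Fourier transform of Schwartz functions,
Plancherel, truncation, rescaling.
-/

set_option autoImplicit false

open Complex Filter Topology MeasureTheory Set

namespace Pool.Agent.Y590.HC

open SchwartzMap FourierTransform

/-- cutoff -/
noncomputable def cut (n : ℕ) (t : ℝ) : ℝ := max 0 (min 1 (n + 1 - t))

theorem cut_cont (n : ℕ) : Continuous (cut n) := by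
  unfold cut
  fun_prop

theorem cut_nonneg (n : ℕ) (t : ℝ) : 0 ≤ cut n t := le_max_left _ _

theorem cut_le (n : ℕ) (t : ℝ) : cut n t ≤ 1 := max_le zero_le_one (min_le_left _ _)

theorem cut_one {n : ℕ} {t : ℝ} (h : t ≤ n) : cut n t = 1 := by
  unfold cut
  rw [min_eq_left (by linarith), max_eq_right zero_le_one]

theorem cut_zero {n : ℕ} {t : ℝ} (h : (n : ℝ) + 1 ≤ t) : cut n t = 0 := by
  unfold cut
  rw [min_eq_right (by linarith), max_eq_left (by linarith)]

/-- smooth bump with prescribed mass, as Schwartz function -/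
theorem bump0 (r : ℕ) (B : Set (EuclideanSpace ℝ (Fin r))) (hB : IsCompact B) (δ : ℝ) (hδ : 0 < δ) :
    ∃ φ : 𝓢(EuclideanSpace ℝ (Fin r), ℂ), (∀ x ∈ B, φ x = 1) ∧
      ∫ x, ‖φ x‖ ^ 2 ≤ (volume B).toReal + δ := by
  have hfin : volume B ≠ ⊤ := hB.measure_lt_top.ne
  obtain ⟨U, hBU, hUo, hU⟩ := hB.exists_isOpen_lt_add (μ := volume)
    (ε := ENNReal.ofReal δ) (by simpa using hδ)
  obtain ⟨R, hR⟩ := hB.isBounded.subset_ball 0
  have hBt : B ⊆ U ∩ Metric.ball 0 R := fun x hx => ⟨hBU hx, hR hx⟩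
  obtain ⟨f, fd, fr, fs, f1⟩ := exists_contMDiff_support_eq_eq_one_iff
    (I := modelWithCornersSelf ℝ (EuclideanSpace ℝ (Fin r))) (n := (⊤ : ℕ∞))
    (hUo.inter Metric.isOpen_ball) hB.isClosed hBt
  have fd' : ContDiff ℝ (⊤ : ℕ∞) f := contMDiff_iff_contDiff.1 fd
  have fz : ∀ x, x ∉ U ∩ Metric.ball 0 R → f x = 0 := by
    intro x hx
    rw [← fs] at hx
    simpa using hx
  have hc : HasCompactSupport (fun x => (f x : ℂ)) := by
    refine HasCompactSupport.intro (isCompact_closedBall 0 R) ?_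
    intro x hx
    have : f x = 0 := fz x fun h => hx (Metric.ball_subset_closedBall h.2)
    simp [this]
  have hd : ContDiff ℝ (⊤ : ℕ∞) (fun x => (f x : ℂ)) := Complex.ofRealCLM.contDiff.comp fd'
  refine ⟨hc.toSchwartzMap hd, ?_, ?_⟩
  · intro x hx
    have : f x = 1 := (f1 x).1 hx
    simp [this]
  · have hm : MeasurableSet (U ∩ Metric.ball (0 : EuclideanSpace ℝ (Fin r)) R) :=
      (hUo.inter Metric.isOpen_ball).measurableSet
    have hlt : volume (U ∩ Metric.ball (0 : EuclideanSpace ℝ (Fin r)) R) <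
        volume B + ENNReal.ofReal δ := lt_of_le_of_lt (measure_mono inter_subset_left) hU
    have hne : volume (U ∩ Metric.ball (0 : EuclideanSpace ℝ (Fin r)) R) ≠ ⊤ := hlt.ne_top
    have e1 : ∫ x, ‖(hc.toSchwartzMap hd) x‖ ^ 2 ≤
        ∫ x, (U ∩ Metric.ball (0 : EuclideanSpace ℝ (Fin r)) R).indicator (fun _ => (1 : ℝ)) x := by
      refine integral_mono_of_nonneg (Eventually.of_forall fun x => by positivity)
        ((integrable_indicator_iff hm).2 (integrableOn_const hne)) (Eventually.of_forall fun x => ?_)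
      have hap : (hc.toSchwartzMap hd) x = ((f x : ℝ) : ℂ) := rfl
      simp only [hap]
      by_cases hx : x ∈ U ∩ Metric.ball (0 : EuclideanSpace ℝ (Fin r)) R
      · rw [indicator_of_mem hx]
        have h01 : f x ∈ Icc (0 : ℝ) 1 := fr (mem_range_self x)
        rw [Complex.norm_real, Real.norm_eq_abs, sq_abs]
        have := h01.1
        have := h01.2
        nlinarith
      · rw [indicator_of_notMem hx, fz x hx]
        simp
    refine e1.trans ?_
    rw [integral_indicator_const _ hm]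
    simp only [smul_eq_mul, mul_one]
    unfold Measure.real
    have := ENNReal.toReal_mono (by finiteness) hlt.le
    rw [ENNReal.toReal_add hfin (by finiteness), ENNReal.toReal_ofReal hδ.le] at this
    exact this

/-- the statement on the Euclidean space -/
theorem bumpV (r : ℕ) (B : Set (EuclideanSpace ℝ (Fin r))) (hB : IsCompact B) (δ : ℝ) (hδ : 0 < δ) :
    ∃ (ρ : ℝ) (g : EuclideanSpace ℝ (Fin r) → ℂ), Continuous g ∧ (∀ z, ρ < ‖z‖ → g z = 0) ∧
      (∀ θ ∈ B, 1 ≤ ‖∫ z, cexp (((-2 * Real.pi * inner ℝ z θ : ℝ) : ℂ) * I) • g z‖) ∧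
      ∫ z, ‖g z‖ ^ 2 ≤ (volume B).toReal + δ := by
  obtain ⟨φ, hφ1, hφ2⟩ := bump0 r B hB (δ / 2) (by linarith)
  set V : ℝ := (volume B).toReal with hV
  have hV0 : 0 ≤ V := ENNReal.toReal_nonneg
  set G : 𝓢(EuclideanSpace ℝ (Fin r), ℂ) := 𝓕⁻ φ with hG
  have hFG : 𝓕 G = φ := FourierTransform.fourier_fourierInv_eq φ
  have hL2 : ∫ x, ‖G x‖ ^ 2 ≤ V + δ / 2 := by
    rw [← SchwartzMap.integral_norm_sq_fourier G, hFG]
    exact hφ2
  have hGi : Integrable (fun z => G z) := G.integrable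
  have hGc : Continuous (fun z => G z) := G.continuous
  -- truncation error
  have hlim : Tendsto (fun n : ℕ => ∫ z, (1 - cut n ‖z‖) * ‖G z‖) atTop (𝓝 0) := by
    have h0 : (0 : ℝ) = ∫ _z : EuclideanSpace ℝ (Fin r), (0 : ℝ) := by simp
    rw [h0]
    refine tendsto_integral_of_dominated_convergence (fun z => ‖G z‖) ?_ hGi.norm ?_ ?_
    · intro n
      exact ((continuous_const.sub ((cut_cont n).comp continuous_norm)).mul
        hGc.norm).aestronglyMeasurable
    · intro n
      refine Eventually.of_forall fun z => ?_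
      have h1 := cut_nonneg n ‖z‖
      have h2 := cut_le n ‖z‖
      rw [norm_mul, norm_norm, Real.norm_eq_abs, abs_of_nonneg (by linarith)]
      exact mul_le_of_le_one_left (norm_nonneg _) (by linarith)
    · refine Eventually.of_forall fun z => ?_
      refine tendsto_const_nhds.congr' ?_
      obtain ⟨m, hm⟩ := exists_nat_ge ‖z‖
      filter_upwards [eventually_ge_atTop m] with n hn
      rw [cut_one (hm.trans (by exact_mod_cast hn))]
      simp
  set η : ℝ := δ / (4 * (V + δ)) with hη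
  have hη0 : 0 < η := by positivity
  have hη1 : η ≤ 1 / 4 := by
    rw [hη, div_le_iff₀ (by positivity)]
    linarith
  have hη2 : 2 * η * (V + δ) = δ / 2 := by
    rw [hη]
    field_simp
    ring
  obtain ⟨n, hn⟩ := (hlim.eventually (gt_mem_nhds hη0)).exists
  have h1η : 0 < 1 - η := by linarith
  have hcn : Continuous fun z : EuclideanSpace ℝ (Fin r) => cut n ‖z‖ :=
    (cut_cont n).comp continuous_norm
  refine ⟨n + 1, fun z => (((1 - η)⁻¹ * cut n ‖z‖ : ℝ) : ℂ) * G z, ?_, ?_, ?_, ?_⟩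
  · exact (Complex.continuous_ofReal.comp (continuous_const.mul hcn)).mul hGc
  · intro z hz
    simp [cut_zero hz.le]
  · intro θ hθ
    have key : ∀ z : EuclideanSpace ℝ (Fin r),
        ‖cexp (((-2 * Real.pi * inner ℝ z θ : ℝ) : ℂ) * I)‖ = 1 := fun z =>
      Complex.norm_exp_ofReal_mul_I _
    have hec : Continuous fun z : EuclideanSpace ℝ (Fin r) =>
        cexp (((-2 * Real.pi * inner ℝ z θ : ℝ) : ℂ) * I) := by fun_prop
    have hF : ∫ z, cexp (((-2 * Real.pi * inner ℝ z θ : ℝ) : ℂ) * I) • G z = 1 := by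
      rw [← hφ1 θ hθ, ← hFG, SchwartzMap.fourier_coe, Real.fourier_eq']
    have hint : ∀ c : EuclideanSpace ℝ (Fin r) → ℝ, Continuous c → (∀ z, |c z| ≤ 1) →
        Integrable (fun z => cexp (((-2 * Real.pi * inner ℝ z θ : ℝ) : ℂ) * I) * ((c z : ℝ) : ℂ) *
          G z) := by
      intro c hc1 hc2
      refine hGi.norm.mono' ((hec.mul (Complex.continuous_ofReal.comp hc1)).mul
        hGc).aestronglyMeasurable (Eventually.of_forall fun z => ?_)
      rw [norm_mul, norm_mul, key, one_mul, Complex.norm_real, Real.norm_eq_abs]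
      exact mul_le_of_le_one_left (norm_nonneg _) (hc2 z)
    have e1 : ∫ z, cexp (((-2 * Real.pi * inner ℝ z θ : ℝ) : ℂ) * I) •
        ((((1 - η)⁻¹ * cut n ‖z‖ : ℝ) : ℂ) * G z) =
        (((1 - η)⁻¹ : ℝ) : ℂ) * (1 - ∫ z, cexp (((-2 * Real.pi * inner ℝ z θ : ℝ) : ℂ) * I) *
          ((1 - cut n ‖z‖ : ℝ) : ℂ) * G z) := by
      rw [← hF, ← integral_sub, ← integral_const_mul]
      · refine integral_congr_ae (Eventually.of_forall fun z => ?_)
        simp only [smul_eq_mul]
        push_cast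
        ring
      · have := hint (fun _ => 1) continuous_const (by simp)
        simpa using this
      · refine hint (fun z => 1 - cut n ‖z‖) (continuous_const.sub hcn) ?_
        intro z
        have h1 := cut_nonneg n ‖z‖
        have h2 := cut_le n ‖z‖
        rw [abs_of_nonneg (by linarith)]
        linarith
    have e2 : ‖∫ z, cexp (((-2 * Real.pi * inner ℝ z θ : ℝ) : ℂ) * I) *
          ((1 - cut n ‖z‖ : ℝ) : ℂ) * G z‖ ≤ η := by
      refine (norm_integral_le_integral_norm _).trans (le_trans (le_of_eq ?_) hn.le)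
      refine integral_congr_ae (Eventually.of_forall fun z => ?_)
      have h2 := cut_le n ‖z‖
      simp only
      rw [norm_mul, norm_mul, key, one_mul, Complex.norm_real, Real.norm_eq_abs,
        abs_of_nonneg (by linarith)]
    rw [e1, norm_mul, Complex.norm_real, Real.norm_eq_abs, abs_of_pos (inv_pos.2 h1η),
      ← div_eq_inv_mul, one_le_div h1η]
    have e3 := norm_sub_norm_le (1 : ℂ) (∫ z, cexp (((-2 * Real.pi * inner ℝ z θ : ℝ) : ℂ) * I) *
          ((1 - cut n ‖z‖ : ℝ) : ℂ) * G z)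
    rw [norm_one] at e3
    linarith
  · have e1 : ∫ z, ‖(((1 - η)⁻¹ * cut n ‖z‖ : ℝ) : ℂ) * G z‖ ^ 2 ≤
        ∫ z, (1 - η)⁻¹ ^ 2 * ‖G z‖ ^ 2 := by
      refine integral_mono_of_nonneg (Eventually.of_forall fun z => by positivity) ?_
        (Eventually.of_forall fun z => ?_)
      · refine Integrable.const_mul ?_ _
        have := (G.memLp 2 volume).integrable_norm_pow (by norm_num)
        simpa using this
      · simp only
        rw [norm_mul, mul_pow, Complex.norm_real, Real.norm_eq_abs, sq_abs, mul_pow]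
        have h1 := cut_nonneg n ‖z‖
        have h2 := cut_le n ‖z‖
        have h3 : cut n ‖z‖ ^ 2 ≤ 1 := by nlinarith
        have h4 : 0 ≤ (1 - η)⁻¹ ^ 2 := by positivity
        have h5 : 0 ≤ ‖G z‖ ^ 2 := by positivity
        exact mul_le_mul_of_nonneg_right (mul_le_of_le_one_right h4 h3) h5
    refine e1.trans ?_
    rw [integral_const_mul]
    have h6 : (1 - η)⁻¹ ^ 2 * ∫ z, ‖G z‖ ^ 2 ≤ (1 - η)⁻¹ ^ 2 * (V + δ / 2) :=
      mul_le_mul_of_nonneg_left hL2 (by positivity)
    refine h6.trans ?_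
    rw [inv_pow, ← div_eq_inv_mul, div_le_iff₀ (by positivity)]
    nlinarith [mul_nonneg (sq_nonneg η) (by linarith : 0 ≤ V + δ)]

/-- BUMP -/
theorem t_bump : Pool.Agent.Y767.StBump := by
  intro r B hB δ hδ
  have hB' : IsCompact (WithLp.toLp 2 '' B : Set (EuclideanSpace ℝ (Fin r))) :=
    hB.image (PiLp.continuous_toLp 2 _)
  obtain ⟨ρ, g, hgc, hgs, hgB, hgL⟩ := bumpV r _ hB' δ hδ
  have hmp := PiLp.volume_preserving_toLp (Fin r)
  have hme : MeasurableEmbedding (WithLp.toLp 2 : (Fin r → ℝ) → EuclideanSpace ℝ (Fin r)) :=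
    (MeasurableEquiv.toLp 2 (Fin r → ℝ)).measurableEmbedding
  have hvol : volume (WithLp.toLp 2 '' B : Set (EuclideanSpace ℝ (Fin r))) = volume B := by
    rw [← hmp.measure_preimage hB'.measurableSet.nullMeasurableSet,
      preimage_image_eq _ (WithLp.toLp_injective 2)]
  have hic : ∀ {E : Type} [NormedAddCommGroup E] [NormedSpace ℝ E]
      (F : EuclideanSpace ℝ (Fin r) → E),
      ∫ z : Fin r → ℝ, F (WithLp.toLp 2 z) = ∫ z, F z := fun F => hmp.integral_comp hme F
  refine ⟨ρ, fun z => g (WithLp.toLp 2 z), hgc.comp (PiLp.continuous_toLp 2 _), ?_, ?_, ?_⟩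
  · rintro z ⟨i, hi⟩
    refine hgs _ (hi.trans_le ?_)
    have := PiLp.norm_apply_le (WithLp.toLp 2 z : EuclideanSpace ℝ (Fin r)) i
    simpa using this
  · intro θ hθ
    have h1 := hgB (WithLp.toLp 2 θ) (mem_image_of_mem _ hθ)
    rw [← hic] at h1
    have h2 : (∫ z : Fin r → ℝ, cexp (((-2 * Real.pi * inner ℝ
        (WithLp.toLp 2 z : EuclideanSpace ℝ (Fin r)) (WithLp.toLp 2 θ) : ℝ) : ℂ) * I) •
          g (WithLp.toLp 2 z)) =
        ∫ z : Fin r → ℝ, g (WithLp.toLp 2 z) *
          cexp (-(2 * Real.pi * I * ((∑ i, θ i * z i : ℝ) : ℂ))) := by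
      refine integral_congr_ae (Eventually.of_forall fun z => ?_)
      simp only [smul_eq_mul]
      rw [mul_comm]
      congr 2
      have : inner ℝ (WithLp.toLp 2 z : EuclideanSpace ℝ (Fin r)) (WithLp.toLp 2 θ) =
          ∑ i, θ i * z i := by
        simp [PiLp.inner_apply]
      rw [this]
      push_cast
      ring
    rw [← h2]
    nlinarith
  · rw [hvol] at hgL
    exact (hic fun z => ‖g z‖ ^ 2).trans_le hgL

end Pool.Agent.Y590.HC
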